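import Pool.Agent.H586.GLU.Stm

/-!
# Project GLU (helper586), task GLU-RS: the Riemann sum of the three-gluon vertex
-/

set_option autoImplicit false
set_option linter.unusedSectionVars false
set_option linter.unusedVariables false

open MeasureTheory Filter Topology
open scoped Classical

namespace Pool.Agent.H390.GLU

open Pool.Agent
open Pool.Agent.N990 (Site Lab ev dp plabs Ns mem_Ns)
open Pool.Agent.N990.C (Pt LPt IsTest Slb eh ez pd zh emb flo inS hd emb_zh ext_site hd_site ext_zero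
  int_flo emb_flo_dist)
open Pool.Agent.N839.C (rs ext_rs hd_rs emb_add emb_flo_tendsto inS_in tend_slab slope_tendsto test_bd
  norm_eh mul_le_one)
open Pool.Agent.N109.Slab (SF box)
open Pool.Agent.H586.GLU (wd S_RS)

noncomputable section

variable {D L : ℕ}

/-- the antisymmetric product at a lattice point -/
def wz (u v : SF D L) (i j : Fin D) (z : LPt D) : ℝ :=
  N990.C.ext u i z * N990.C.ext v j (z + zh i) - N990.C.ext u j (z + zh i) * N990.C.ext v i z +
    N990.C.ext u i (z + zh j) * N990.C.ext v j z - N990.C.ext u j z * N990.C.ext v i (z + zh j)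

lemma wz_site (u v : SF D L) (i j : Fin D) (x : Site D) (s : Fin L) :
    wz u v i j (x, ((s : ℕ) : ℤ) + 1) = wd u v x ((i, j), s) := by
  unfold wz wd
  have e : ∀ k : Fin D, ((x, ((s : ℕ) : ℤ) + 1) : LPt D) + zh k =
      (x + ev k, ((s : ℕ) : ℤ) + 1) := by
    intro k
    unfold zh ev
    ext <;> simp
  rw [e, e]
  simp only [ext_site]

/-- the summand -/
def gz (φ1 φ2 φ3 : Pt D → Fin D → ℝ) (L : ℕ) (z : LPt D) : ℝ :=
  ∑ i, ∑ j, if i < j then
    ((L : ℝ) * hd (rs L φ1) i j z) * wz (rs L φ2) (rs L φ3) i j z else 0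

lemma gz_site (φ1 φ2 φ3 : Pt D → Fin D → ℝ) (L : ℕ) (x : Site D) :
    ∑ s : Fin L, gz φ1 φ2 φ3 L (x, ((s : ℕ) : ℤ) + 1) =
      (L : ℝ) * ∑ p ∈ plabs D L, dp (rs L φ1 : SF D L) x p * wd (rs L φ2 : SF D L) (rs L φ3) x p := by
  unfold gz
  simp only [hd_site, wz_site]
  unfold plabs
  rw [Finset.sum_filter, Finset.mul_sum, Fintype.sum_prod_type, Fintype.sum_prod_type,
    Finset.sum_comm]
  refine Finset.sum_congr rfl fun i _ => ?_
  rw [Finset.sum_comm]
  refine Finset.sum_congr rfl fun j _ => Finset.sum_congr rfl fun s _ => ?_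
  simp only
  split_ifs
  · ring
  · rw [mul_zero]

lemma gz_supp {φ1 φ2 φ3 : Pt D → Fin D → ℝ} {L : ℕ} {A : Finset (Site D)}
    (hv : ∀ x ∉ A, (rs L φ1 : SF D L) x = 0) {z : LPt D} (hz : z.1 ∉ Ns A) :
    gz φ1 φ2 φ3 L z = 0 := by
  rw [mem_Ns, not_or, not_exists] at hz
  have h2 : ∀ i j, hd (rs L φ1) i j z = 0 := by
    intro i j
    have h3 : ∀ k, (z + zh k).1 ∉ A := by
      intro k
      have : (z + zh k).1 = z.1 + ev k := by unfold zh ev; simp
      rw [this]; exact hz.2 k
    unfold hd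
    rw [ext_zero hv hz.1, ext_zero hv hz.1, ext_zero hv (h3 i), ext_zero hv (h3 j)]
    ring
  unfold gz
  simp only [h2]
  simp

/-- the lattice sum as an integral -/
lemma gz_eq {φ1 φ2 φ3 : Pt D → Fin D → ℝ} {L : ℕ} (hL : 1 ≤ L) {A : Finset (Site D)}
    (hv : ∀ x ∉ A, (rs L φ1 : SF D L) x = 0) :
    (∫ p : Pt D, if inS L (flo L p) then gz φ1 φ2 φ3 L (flo L p) else 0) =
      ((L : ℝ) ^ D)⁻¹ * ∑ x ∈ Ns A, ∑ p ∈ plabs D L,
        dp (rs L φ1 : SF D L) x p * wd (rs L φ2 : SF D L) (rs L φ3) x p := by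
  rw [int_flo hL (Ns A) (fun z => if inS L z then gz φ1 φ2 φ3 L z else 0)]
  · have hL0 : (0 : ℝ) < L := by exact_mod_cast hL
    have e1 : ∑ x ∈ Ns A, ∑ s : Fin L, (if inS L ((x, ((s : ℕ) : ℤ) + 1) : LPt D) then
        gz φ1 φ2 φ3 L (x, ((s : ℕ) : ℤ) + 1) else 0) = (L : ℝ) * ∑ x ∈ Ns A, ∑ p ∈ plabs D L,
        dp (rs L φ1 : SF D L) x p * wd (rs L φ2 : SF D L) (rs L φ3) x p := by
      rw [Finset.mul_sum]
      refine Finset.sum_congr rfl fun x _ => ?_
      rw [← gz_site]
      refine Finset.sum_congr rfl fun s _ => ?_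
      rw [if_pos]
      have := s.2
      exact ⟨by simp only; omega, by simp only; omega⟩
    rw [e1, pow_succ, one_div, inv_pow]
    field_simp
  · intro z hz
    by_cases h : inS L z
    · rw [if_pos h] at hz
      refine ⟨?_, h.1, h.2⟩
      by_contra h2
      exact hz (gz_supp hv h2)
    · rw [if_neg h] at hz
      exact absurd rfl hz

lemma wz_rs {L : ℕ} {u v : Pt D → Fin D → ℝ} (hu : ∀ y, u (y, 0) = 0) (hv : ∀ y, v (y, 0) = 0)
    (i j : Fin D) {z : LPt D} (hz : inS L z) : wz (rs L u) (rs L v) i j z =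
      u (emb L z) i * v (emb L z + (1 / (L : ℝ)) • eh i) j -
        u (emb L z + (1 / (L : ℝ)) • eh i) j * v (emb L z) i +
        u (emb L z + (1 / (L : ℝ)) • eh j) i * v (emb L z) j -
        u (emb L z) j * v (emb L z + (1 / (L : ℝ)) • eh j) i := by
  obtain ⟨h1, h2⟩ := hz
  have e1 : ∀ k, (z + zh k).2 = z.2 := fun k => by unfold zh; simp
  have a1 : ∀ k, N990.C.ext (rs L u) k z = u (emb L z) k := fun k => ext_rs hu (by omega) h2
  have a2 : ∀ k, N990.C.ext (rs L v) k z = v (emb L z) k := fun k => ext_rs hv (by omega) h2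
  have a3 : ∀ k l, N990.C.ext (rs L u) k (z + zh l) = u (emb L z + (1 / (L : ℝ)) • eh l) k :=
    fun k l => by
      rw [ext_rs hu (by rw [e1]; omega) (by rw [e1]; omega), emb_add, emb_zh]
  have a4 : ∀ k l, N990.C.ext (rs L v) k (z + zh l) = v (emb L z + (1 / (L : ℝ)) • eh l) k :=
    fun k l => by
      rw [ext_rs hv (by rw [e1]; omega) (by rw [e1]; omega), emb_add, emb_zh]
  unfold wz
  rw [a1, a1, a2, a2, a3, a3, a4, a4]

theorem rsum : S_RS := by
  intro D φ1 φ2 φ3 t1 t2 t3 K hK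
  obtain ⟨C1, R1, hC1, hR1, b1, l1, s1⟩ := test_bd t1
  obtain ⟨C2, R2, hC2, hR2, b2, l2, s2⟩ := test_bd t2
  obtain ⟨C3, R3, hC3, hR3, b3, l3, s3⟩ := test_bd t3
  have key : Tendsto (fun L : ℕ => ∫ p : Pt D, if inS L (flo L p) then
      gz φ1 φ2 φ3 L (flo L p) else 0) atTop
      (𝓝 (∫ p in Slb D, ∑ i, ∑ j, if i < j then
        (pd φ1 (eh i) j p - pd φ1 (eh j) i p) *
          (2 * (φ2 p i * φ3 p j - φ2 p j * φ3 p i)) else 0)) := by
    refine tend_slab (G := fun L z => gz φ1 φ2 φ3 L z)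
      (M := ∑ _i : Fin D, ∑ _j : Fin D, (2 * C1) * (4 * (C2 * C3))) (R := R1 + 1) ?_ ?_ ?_
    · intro L hL z hz
      have v2 : ∀ i j, |(L : ℝ) * hd (rs L φ1) i j z| ≤ 2 * C1 := by
        intro i j
        rw [hd_rs t1.wall i j hz, mul_sub]
        refine (abs_sub _ _).trans ?_
        have a1 : |(L : ℝ) * (φ1 (emb L z + (1 / (L : ℝ)) • eh i) j - φ1 (emb L z) j)| ≤ C1 := by
          refine mul_le_one hL hC1 (norm_eh i) ((l1 _ _ j).trans (le_of_eq ?_))
          rw [add_sub_cancel_left]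
        have a2 : |(L : ℝ) * (φ1 (emb L z + (1 / (L : ℝ)) • eh j) i - φ1 (emb L z) i)| ≤ C1 := by
          refine mul_le_one hL hC1 (norm_eh j) ((l1 _ _ i).trans (le_of_eq ?_))
          rw [add_sub_cancel_left]
        linarith
      have v3 : ∀ i j, |wz (rs L φ2) (rs L φ3) i j z| ≤ 4 * (C2 * C3) := by
        intro i j
        rw [wz_rs t2.wall t3.wall i j hz]
        have m : ∀ p q k l, |φ2 p k * φ3 q l| ≤ C2 * C3 := fun p q k l => by
          rw [abs_mul]
          exact mul_le_mul (b2 _ _) (b3 _ _) (abs_nonneg _) hC2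
        have m1 := abs_le.1 (m (emb L z) (emb L z + (1 / (L : ℝ)) • eh i) i j)
        have m2 := abs_le.1 (m (emb L z + (1 / (L : ℝ)) • eh i) (emb L z) j i)
        have m3 := abs_le.1 (m (emb L z + (1 / (L : ℝ)) • eh j) (emb L z) i j)
        have m4 := abs_le.1 (m (emb L z) (emb L z + (1 / (L : ℝ)) • eh j) j i)
        rw [abs_le]
        constructor <;> linarith [m1.1, m1.2, m2.1, m2.2, m3.1, m3.2, m4.1, m4.2]
      unfold gz
      refine (Finset.abs_sum_le_sum_abs _ _).trans (Finset.sum_le_sum fun i _ => ?_)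
      refine (Finset.abs_sum_le_sum_abs _ _).trans (Finset.sum_le_sum fun j _ => ?_)
      have hnn : 0 ≤ (2 * C1) * (4 * (C2 * C3)) := by positivity
      split_ifs
      · rw [abs_mul]
        exact mul_le_mul (v2 i j) (v3 i j) (abs_nonneg _) (by positivity)
      · rw [abs_zero]
        exact hnn
    · intro L hL z hz hne
      by_contra hcon
      apply hne
      have hcon' : R1 + 1 < ‖emb L z‖ := not_le.1 hcon
      have hL1 : (1 : ℝ) / L ≤ 1 := by
        rw [div_le_one (by exact_mod_cast hL)]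
        exact_mod_cast hL
      have hL0 : (0 : ℝ) < L := by exact_mod_cast hL
      have far : ∀ q : Pt D, ‖emb L z - q‖ ≤ 1 → φ1 q = 0 := by
        intro q hq
        by_contra hqu
        have := s1 q hqu
        have h4 : ‖emb L z‖ ≤ ‖emb L z - q‖ + ‖q‖ := by
          have : emb L z = (emb L z - q) + q := by abel
          nth_rw 1 [this]
          exact norm_add_le _ _
        linarith
      have sm : ∀ e : Pt D, ‖e‖ ≤ 1 → ‖(1 / (L : ℝ)) • e‖ ≤ 1 := by
        intro e he
        rw [norm_smul, Real.norm_eq_abs, abs_of_pos (by positivity)]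
        have : 1 / (L : ℝ) * ‖e‖ ≤ 1 * 1 := mul_le_mul hL1 he (norm_nonneg _) zero_le_one
        linarith
      have z0 : φ1 (emb L z) = 0 := far _ (by rw [sub_self, norm_zero]; exact zero_le_one)
      have z2 : ∀ k, φ1 (emb L z + (1 / (L : ℝ)) • eh k) = 0 := fun k => far _ (by
        rw [sub_add_cancel_left, norm_neg]
        exact sm _ (norm_eh k))
      have q2 : ∀ i j, hd (rs L φ1) i j z = 0 := by
        intro i j
        rw [hd_rs t1.wall i j hz, z0, z2, z2]
        simp
      show gz φ1 φ2 φ3 L z = 0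
      unfold gz
      simp only [q2]
      simp
    · intro p hp0 hp1
      have hin := inS_in hp0 hp1
      have t0 := emb_flo_tendsto p
      have tk : ∀ k : Fin D, Tendsto (fun L : ℕ => emb L (flo L p) + (1 / (L : ℝ)) • eh k) atTop
          (𝓝 p) := by
        intro k
        have h4 : Tendsto (fun L : ℕ => (1 / (L : ℝ)) • (eh k : Pt D)) atTop
            (𝓝 ((0 : ℝ) • (eh k : Pt D))) :=
          tendsto_one_div_atTop_nhds_zero_nat.smul_const _
        have h5 := t0.add h4
        rw [zero_smul, add_zero] at h5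
        exact h5
      have w2 : ∀ i j, Tendsto (fun L : ℕ => (L : ℝ) * hd (rs L φ1) i j (flo L p)) atTop
          (𝓝 (pd φ1 (eh i) j p - pd φ1 (eh j) i p)) := by
        intro i j
        refine ((slope_tendsto t1.smooth (e := eh i) t0 j).sub
          (slope_tendsto t1.smooth (e := eh j) t0 i)).congr' ?_
        filter_upwards [hin] with L hL
        rw [hd_rs t1.wall i j hL]
        ring
      have c2 : ∀ (a : ℕ → Pt D), Tendsto a atTop (𝓝 p) → ∀ k,
          Tendsto (fun L => φ2 (a L) k) atTop (𝓝 (φ2 p k)) := fun a ha k =>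
        (((continuous_apply k).comp t2.smooth.continuous).tendsto p).comp ha
      have c3 : ∀ (a : ℕ → Pt D), Tendsto a atTop (𝓝 p) → ∀ k,
          Tendsto (fun L => φ3 (a L) k) atTop (𝓝 (φ3 p k)) := fun a ha k =>
        (((continuous_apply k).comp t3.smooth.continuous).tendsto p).comp ha
      have w3 : ∀ i j, Tendsto (fun L : ℕ => wz (rs L φ2) (rs L φ3) i j (flo L p)) atTop
          (𝓝 (2 * (φ2 p i * φ3 p j - φ2 p j * φ3 p i))) := by
        intro i j
        have e : 2 * (φ2 p i * φ3 p j - φ2 p j * φ3 p i) =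
            φ2 p i * φ3 p j - φ2 p j * φ3 p i + φ2 p i * φ3 p j - φ2 p j * φ3 p i := by ring
        rw [e]
        refine ((((c2 _ t0 i).mul (c3 _ (tk i) j)).sub ((c2 _ (tk i) j).mul (c3 _ t0 i))).add
          ((c2 _ (tk j) i).mul (c3 _ t0 j)) |>.sub ((c2 _ t0 j).mul (c3 _ (tk j) i))).congr' ?_
        filter_upwards [hin] with L hL
        rw [wz_rs t2.wall t3.wall i j hL]
      unfold gz
      refine tendsto_finsetSum _ fun i _ => tendsto_finsetSum _ fun j _ => ?_
      split_ifs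
      · exact (w2 i j).mul (w3 i j)
      · exact tendsto_const_nhds
  refine key.congr' ?_
  filter_upwards [eventually_ge_atTop 1] with L hL
  exact gz_eq hL fun x hx => (hK L hL x hx).1

end

end Pool.Agent.H390.GLU
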